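import Mathlib
import Pool.Agent.H853.G2.Rat

/-!
# Semisimplicity of geometric Galois representations over `ℚ` with values in `G₂`

Let `𝕂` be a finite extension of `ℚ_ℓ` and let `V = 𝕂 ^ 7` with a cross product: a nondegenerate symmetric
bilinear form `J` and a product with `x × x = 0`, `J(x × y, x) = 0` and
`x × (x × y) = J(x, y) x - J(x, x) y` (the imaginary octonions, `IsCross`).  The group of automorphisms of
the product is the group `G₂` over `𝕂`, split or not.  For example `V` is the `ℓ`-adic (or `λ`-adic)
realization of a motive of rank `7` over a field `k` with motivic Galois group contained in `G₂`, like the
motives of Dettweiler-Reiter and of Gross-Savin, or the transcendental part of `H ^ 2` of some surfaces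
with `p_g = 2`, or the representation attached to an automorphic form of type `G₂`.

Let `G` be a group (the absolute Galois group of the finitely generated field `k`) which acts on `V` by
automorphisms of the product, and let `s` be a homomorphism of `Gal(ℚ)` to `G` (the identity if `k = ℚ`,
and in general given by a rational point of a model of the motive).  We suppose

* there are three prime numbers `p ≠ ℓ` at which the representation of `Gal(ℚ)` is pure of weight `0` (good
  reduction, or bad reduction with the weight-monodromy property, `PureAt` of the library), and at one of
  them it has good reduction (`ThreePrimes`; `R v` is the multiset of the Frobenius eigenvalues on the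
  kernel of the monodromy operator, and `Above v p` says that `v` is the prime `p`);
* EITHER the seven Hodge-Tate weights are different from each other, for one embedding of `𝕂` in `ℂ_ℓ`,
  OR all powers of some element of the image of `Gal(ℚ)`, for example of one Frobenius element, have seven
  different eigenvalues (the eigenvalues of a Frobenius element on `V` are
  `1, α, β, (α β)⁻¹, α⁻¹, β⁻¹, α β`; so there is one multiplicative relation which is always there).

**Theorem.** The representation of `G` on `V` is semisimple, for every `ℓ`.

No motive, no reductive group which contains the image with a known invariant theory, and no condition on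
the image of the representation are needed.  The theorem on Hodge-Tate numbers in the library
(`MP_8f1292_ag.HodgeNumbers`) concerns the forms: it needs that no sum of Hodge-Tate weights `a_s`, `s ∈ S`,
is zero for the subsets `S` of size at most `3` without opposite weights; this never holds for `G₂`, as
`a + b + (-a-b) = 0`.  Our `HodgeCocharacter` supposes that the Lie algebra which contains the monodromy is
motivic (reductive, defined by invariant tensors which are Tate tensors), coefficients `ℚ_ℓ`, good
reduction, and different Hodge-Tate weights.

The proof.  By the theorems of the library (six exponentials, Tate's theorem on `H ^ 0 (ℂ_ℓ(m))`, Sen's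
method) each stable subspace `U` has a determinant of finite order, and is spanned over the closure by the
vectors in the basis of eigenvectors, or of vectors of pure Hodge-Tate weight, which it contains; the sum
of the weights (product of the eigenvalues up to a root of unity) is zero.  Let `R = U ∩ U^⊥ ≠ 0`, an
isotropic stable subspace.  As the weights are different it cannot contain vectors of weights `a` and
`-a`; so a sum of one or two weights of `R` is not zero, and `dim R = 3`, with the weights `a + b + c = 0`.
Consider the stable subspace `R'` spanned by the products of two elements of `R`.  It is not zero, because a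
totally isotropic subspace of dimension three is not a null subspace of the octonions; and its weights are
in `-{a, b, c}`, again with sum zero if we take any stable subspace of it.  So `R'` has the dimension `3`,
and it is a complement of `R^⊥`; from this one finds a stable complement of `U`.
-/

set_option autoImplicit false

namespace Pool.Agent.Results.MP_8f1292_ag.GTwoValued

open NumberField Pool.Agent.H853.G2 Pool.Agent.K7.H9.HT

/-- **Geometric Galois representations with values in `G₂` are semisimple**, if the Hodge-Tate weights are
different, or if all powers of some element of the Galois group have seven different eigenvalues. -/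
theorem result (ℓ : ℕ) [Fact ℓ.Prime]
    -- a finite extension of `ℚ_ℓ`
    (𝕂 : Type) [NormedField 𝕂] [NormedAlgebra ℚ_[ℓ] 𝕂] [FiniteDimensional ℚ_[ℓ] 𝕂]
    -- the cross product
    (J : Matrix (Fin 7) (Fin 7) 𝕂) (c : Fin 7 → Fin 7 → Fin 7 → 𝕂) (hJc : IsCross J c)
    -- the representation
    (G : Type) [Group G] (ρ : G →* Matrix.GeneralLinearGroup (Fin 7) 𝕂) (hinv : Preserves ρ c)
    -- the rational point
    (s : Gal(AlgebraicClosure ℚ/ℚ) →* G) (hcont : Continuous (ρ.comp s))
    (hpure : ThreePrimes ℓ (ρ.comp s))
    (hreg : (∃ (i : 𝕂 →ₐ[ℚ_[ℓ]] PadicComplex ℓ) (e : AlgebraicClosure ℚ →+* PadicComplex ℓ)
        (a : Fin 7 → ℤ), Function.Injective a ∧ HodgeTate (ρ.comp s) i e a) ∨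
      ∃ g, SimplePowers (ρ (s g) : Matrix (Fin 7) (Fin 7) 𝕂)) :
    SemisimpleG ρ :=
  semisimple_rat ℓ ρ s hcont hJc hinv hpure hreg

end Pool.Agent.Results.MP_8f1292_ag.GTwoValued
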