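import Pool.Agent.H851.K3.Rat

/-!
# Semisimplicity for surfaces with `p_g = 1` over `ℚ` and the intersection form on Tate classes

Let `X` be a smooth projective surface over `ℚ` (or a variety of any dimension) with `h^{2,0} = 1`, `ℓ` a
prime number and `V = H^2(X, ℚ_ℓ)`, with the form `q` (the cup product with a power of an ample class), as
a representation of the absolute Galois group of `ℚ`. More generally let `V` be the `ℓ`-adic realization of
any pure motive over `ℚ` of K3 type: a twist of it has the Hodge numbers `(1, b - 2, 1)`; for example
`H^4(X)(1)` for a cubic fourfold `X`, or a direct factor of `H^2(X)` with `h^{2,0} = 1` of a surface `X` with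
larger `p_g`. A Tate class is an element of `V` which is fixed, after the Tate twist, by an open subgroup
of the Galois group. Let `R` be the space of the Tate classes.

**Theorem.** (1) Every subrepresentation `W` of `V` without nonzero Tate classes is semisimple and an
orthogonal direct summand of `V`.

(2) `V` is semisimple if and only if the form `q` is nondegenerate on `R`.

(3) Let `p` be a prime number of good reduction and `ν(p)` the number of the eigenvalues `p ζ` of Frobenius
at `p` with roots of unity `ζ` (the conjectural Picard number of the reduction modulo `p`). Then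
`dim R ≤ ν(p)`, and if there is equality for one `p` then `V` is semisimple. So if the geometric Picard
number of `X` is equal to `ν(p)` for ONE prime number `p` then `H^2(X, ℚ_ℓ)` is semisimple for ALL `ℓ ≠ p`
(and the Tate conjecture for divisors holds).

(4) If `R` is spanned by a rational subspace of `H^2(X, ℚ)` on which the form is nondegenerate then `V`
is semisimple. So the Tate conjecture for divisors on `X` over the algebraic closure implies the
conjecture of Grothendieck and Serre for `H^2(X, ℚ_ℓ)`, by the Hodge index theorem.

Nothing is assumed about `X` besides `h^{2,0} = 1`; in particular it is not assumed that `X` is a K3 surface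
or that `X` moves in a family (for such varieties semisimplicity is known by the construction of Kuga and
Satake and the theorem of Faltings; there is no such construction in general). It was known that the Tate
conjecture for all classes on all powers of `X` implies the semisimplicity; here the Tate conjecture for
the divisors on `X` itself is enough, and in fact much less, that there is no Tate class
which is orthogonal to all Tate classes. The used facts on `V` are collected in the structure `IsK3Type`:
`V` is continuous, with a form with values in `ℚ_ℓ(-2)`; and at almost all primes `p` the characteristic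
polynomial of the Frobenius element is monic with integral coefficients, with zeros of absolute value
`p` (Weil conjectures), and its Newton polygon lies above the Hodge polygon (Mazur, Berthelot, Ogus).

The proof. Let `W` be a stable isotropic subspace. By transcendence theory (the six exponentials theorem)
`det W` is, up to finite order, a power of the cyclotomic character, and the product of the
eigenvalues on `W` of a Frobenius element, divided by `p`, is a root of unity. At an ordinary prime the
eigenvalues `p β` of Frobenius on `V` for which `β` is not a root of unity are simple, and independent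
up to `β ↦ 1 / β`: for such a `β` there is a `p`-adic valuation which is not zero at `β` (Kronecker), and
then it is `± 1` at `β` and `1 / β` and zero at all other eigenvalues. As `W` is isotropic, `β` and `1 / β`
are not both eigenvalues on `W`. So all eigenvalues on `W` are roots of unity, for all ordinary Frobenius
elements. These are dense in a neighbourhood of `1` (Chebotarev; a trace argument of Bogomolov and
Zarhin), unless an open subgroup acts on `V` by unipotent matrices. So an open subgroup acts on `W` by
unipotent matrices, and there are Tate classes in `W`, if `W` is not zero (Kolchin).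
-/

set_option autoImplicit false

namespace Pool.Agent.Results.MP_8f1292_ag.GeometricGenusOne

open Matrix Polynomial NumberField IsDedekindDomain Module
open Pool.Agent.H851.K3
open Pool.Agent.NH56.HY (GK)

/-- **Representations of K3 type over `ℚ`.** `ρ` is the action of the Galois group of `ℚ` on `V = ℚ_ℓ ^ n`,
`q` the form, `χ` the inverse of the cyclotomic character and `Pol v` the Frobenius polynomials. `tate χ ρ` is
the space of the Tate classes. -/
theorem result {ℓ : ℕ} [Fact ℓ.Prime] {n : Type} [Fintype n] [DecidableEq n]
    (q : Matrix n n ℚ_[ℓ]) (S : Finset ℕ) (χ : GK ℚ →* ℚ_[ℓ])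
    (Pol : HeightOneSpectrum (𝓞 ℚ) → ℤ[X]) (ρ : GK ℚ →* Matrix n n ℚ_[ℓ])
    (h : IsK3Type q S χ Pol ρ) :
    -- (1)
    (∀ W : Submodule ℚ_[ℓ] (n → ℚ_[ℓ]), Stable ρ W → W ⊓ tate χ ρ = ⊥ → IsCompl W (orth q W) ∧
      ∀ X ≤ W, Stable ρ X → ∃ X' ≤ W, Stable ρ X' ∧ X ⊓ X' = ⊥ ∧ X ⊔ X' = W) ∧
    -- (2)
    (Semisimple ρ ↔ tate χ ρ ⊓ orth q (tate χ ρ) = ⊥) ∧
    -- (3)
    (∀ (p : ℕ) [Fact p.Prime], p ∉ S → ∀ v, Ideal.absNorm v.asIdeal = p →
      finrank ℚ_[ℓ] (tate χ ρ) ≤ rootsOfUnity p (Pol v) ∧
      (finrank ℚ_[ℓ] (tate χ ρ) = rootsOfUnity p (Pol v) → Semisimple ρ)) ∧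
    -- (4)
    (∀ (q₀ : Matrix n n ℚ) (N : Submodule ℚ (n → ℚ)), q = q₀.map (algebraMap ℚ ℚ_[ℓ]) →
      N ⊓ orth q₀ N = ⊥ →
      tate χ ρ = Submodule.span ℚ_[ℓ] ((fun y : n → ℚ => fun i => algebraMap ℚ ℚ_[ℓ] (y i)) '' N) →
      Semisimple ρ) := by
  have hsymm : ∀ x y : n → ℚ_[ℓ], x ⬝ᵥ q *ᵥ y = y ⬝ᵥ q *ᵥ x := by
    intro x y
    rw [Matrix.dotProduct_mulVec y, ← Matrix.mulVec_transpose, h.symm, dotProduct_comm]
  have h2 : Semisimple ρ ↔ tate χ ρ ⊓ orth q (tate χ ρ) = ⊥ := by
    rw [semisimple_iff h]
    constructor
    · intro h1
      rw [eq_bot_iff]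
      rintro x ⟨hx, hx'⟩
      exact h1 x hx fun y hy => by rw [hsymm]; exact hx' y hy
    · intro h1 x hx hxy
      have h3 : x ∈ tate χ ρ ⊓ orth q (tate χ ρ) :=
        ⟨hx, fun y hy => by rw [hsymm]; exact hxy y hy⟩
      rw [h1] at h3
      exact h3
  refine ⟨?_, h2, ?_, ?_⟩
  · intro W hW hWT
    have hT : ∀ x ∈ W, IsTate χ ρ x → x = 0 := by
      intro x hx hx'
      have h3 : x ∈ W ⊓ tate χ ρ := ⟨hx, hx'⟩
      rw [hWT] at h3
      exact h3
    refine ⟨summand h W hW hT, fun X hXW hX => ?_⟩
    obtain ⟨h3, h4, h5⟩ := summand_ss h W hW hT X hXW hX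
    exact ⟨W ⊓ orth q X, inf_le_left, h3, h4, h5⟩
  · intro p _ hpS v hv
    obtain ⟨h3, h4⟩ := num h hpS hv
    exact ⟨h3, fun h5 => (semisimple_iff h).2 (h4 h5)⟩
  · intro q₀ N hq hN hR
    rw [semisimple_iff h]
    intro x hx hxy
    have hsymm₀ : q₀ᵀ = q₀ := by
      have h3 := h.symm
      rw [hq, ← Matrix.transpose_map] at h3
      ext i j
      have h4 := congrFun (congrFun h3 i) j
      exact (algebraMap ℚ ℚ_[ℓ]).injective h4
    refine rat_nondeg q₀ N ?_ x ?_ ?_
    · intro y hy hyz
      have h3 : y ∈ N ⊓ orth q₀ N := by
        refine ⟨hy, fun z hz => ?_⟩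
        rw [Matrix.dotProduct_mulVec, ← Matrix.mulVec_transpose, hsymm₀, dotProduct_comm]
        exact hyz z hz
      rw [hN] at h3
      exact h3
    · rw [← hR]
      exact hx
    · intro y hy
      rw [← hq]
      refine hxy _ ?_
      show _ ∈ tate χ ρ
      rw [hR]
      exact Submodule.subset_span ⟨y, hy, rfl⟩

end Pool.Agent.Results.MP_8f1292_ag.GeometricGenusOne
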