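import Pool.Agent.H853.CC.Dich
import Pool.Agent.H853.CC.Par

/-!
# A criterion of semisimplicity for all `ℓ` in terms of the Hodge cocharacter, for motives of any type

Let `M i` be finitely many pure motives over a number field or a finitely generated field `k` of
characteristic zero (objects of the category of André, `ρ i` the action of the Galois group `Γ` of `k` on
the `ℓ`-adic realization of `M i`), `V` the direct sum of the realizations, and `𝔤 ⊆ End V` the Lie
algebra over `ℚ_ℓ` of the motivic Galois group of the direct sum over the algebraic closure.  The property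
`Motivic ρ 𝔤` (structure `IsMotivic`, from the library) states what is used: `𝔤` is a Lie algebra, it
respects the direct sum, it is reductive, it consists of all endomorphisms which kill the tensors killed by
`𝔤`, and these tensors are Tate tensors.  Let `s` be the restriction to a rational point (the identity if
`k = ℚ`; a homomorphism from the Galois group of `ℚ` to `Γ`), such that the specialization has good
reduction at three primes at least (unramified with rational and pure Frobenius polynomials).  Let `μ` be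
the Hodge-Tate endomorphism of `V ⊗ C` (the operator of Sen, `C` a complete algebraic closure of `ℚ_ℓ`);
it is a conjugate of the derivative of the Hodge cocharacter.  What is used of it is `IsHodgeTate`: for every
stable subspace `L` of `End V` whose determinant is a character of finite order, `[μ, ·]` preserves
`L ⊗ C`, with trace zero.

Theorem.  (1) For every stable subspace `L` of `𝔤` the determinant of `L` is a character of finite order
of the Galois group of `ℚ`, and `[μ, ·]` has the trace zero on `L ⊗ C`.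

(2) Suppose that the nilradical `U` of every proper parabolic subalgebra of `𝔤` (defined over `ℚ_ℓ`) has a
characteristic subspace `L` (`U` itself, its centre, a term of its descending central series, ...; a subspace
of `𝔤` which is stable under all automorphisms of `V` which stabilize `𝔤` and `U`), on which `[μ, ·]`
does not have the trace zero.  Then `V` is semisimple (for all subgroups of finite index of `Γ`).

The condition in (2) is a condition on the motivic Galois group `G` and the Hodge cocharacter `μ` only: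
let `T` be a maximal torus of `G` with `μ` in its Lie algebra, and `ω` one of the fundamental weights or
one of the sums of roots in the nilradical of a proper parabolic subgroup which contains `T`; it suffices
that all `⟨μ, ω⟩` are different from zero, which is true for all `μ` outside finitely many hyperplanes.
For groups of type `A₁`, `B₂` and `G₂`, one can take the centres of the nilradicals (these give the roots, up
to positive factors), and so for these types the condition is true if `μ` is regular: `V` is semisimple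
for all `ℓ` if for instance `k = ℚ`, `G` is of type `G₂`, and `⟨μ, α⟩ ≠ 0` for all roots `α`.

In comparison: the library module `MP_8f1292_ag.HodgeNumbers` treats orthogonal and symplectic
representations `V`, with a condition on the sums of Hodge numbers which is the case of the maximal
parabolic subgroups of `SO(V)` and `Sp(V)`; it uses only the form on `V`, and not the motivic group.  If
`G` is smaller than `SO(V)` the new criterion is weaker: for `G₂ ⊂ SO(7)` there are always isotropic
relations between the seven Hodge-Tate weights `±a, ±b, ±(a + b), 0`, and the criterion of `HodgeNumbers`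
is never satisfied.

The proof.  (1) By the `ℓ`-adic theorem of six exponentials (in the library) the determinant of `L` is a
power of the cyclotomic character up to a character of finite order; its weight is zero.  (2) If `V` is not
semisimple, `Γ` normalizes a proper parabolic subalgebra of `𝔤` (file `H853/CC/Dich`); its nilradical `U`
and the characteristic subspaces of `U` are stable, in contradiction with (1).
-/

set_option autoImplicit false

namespace Pool.Agent.Results.MP_8f1292_ag.HodgeCocharacter

open NumberField IsDedekindDomain Module Polynomial TensorProduct Pool.Agent.Y114.TF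
  Pool.Agent.Y114.GF Pool.Agent.Y114.MU Pool.Agent.Y114.RM Pool.Agent.H204R3.GP
  Pool.Agent.NH34.BD Pool.Agent.H853.SR Pool.Agent.H853.CC Pool.Agent.Y212.RM

section trace

variable {K : Type} [Field K] {W : Type} [AddCommGroup W] [Module K W]

/-- The endomorphism `X ↦ μ X - X μ`. -/
noncomputable def adj (μ : End K W) : End K (End K W) :=
  LinearMap.mulLeft K μ - LinearMap.mulRight K μ

/-- `[μ, ·]` preserves `M`, with trace zero. -/
def TrZero (μ : End K W) (M : Submodule K (End K W)) : Prop :=
  ∃ h : ∀ X ∈ M, adj μ X ∈ M, LinearMap.trace K M ((adj μ).restrict h) = 0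

end trace

section lie

variable {k : Type} [Field k] {V : Type} [AddCommGroup V] [Module k V]

/-- `X` is in the normalizer of `U` in `𝔤`: in `𝔤`, with `[X, U] ⊆ U`. -/
def InNormalizer (𝔤 U : Submodule k (End k V)) (X : End k V) : Prop :=
  X ∈ 𝔤 ∧ ∀ Y ∈ U, X * Y - Y * X ∈ U

/-- `X` is orthogonal to the normalizer of `U` in `𝔤` for the trace form. -/
def OrthogonalToNormalizer (𝔤 U : Submodule k (End k V)) (X : End k V) : Prop :=
  ∀ Y, InNormalizer 𝔤 U Y → LinearMap.trace k V (X * Y) = 0

/-- `U` is a nonzero subspace of `𝔤`, and it consists of the elements of its normalizer in `𝔤` which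
are orthogonal to the normalizer for the trace form.  (By the theorem of Borel and Tits, these are the
nilradicals of the proper parabolic subalgebras of the reductive Lie algebra `𝔤`.) -/
def IsParabolicRadical (𝔤 U : Submodule k (End k V)) : Prop :=
  U ≠ ⊥ ∧ ∀ X, X ∈ U ↔ InNormalizer 𝔤 U X ∧ OrthogonalToNormalizer 𝔤 U X

/-- `g L g' ⊆ L`. -/
def Carries (g g' : End k V) (L : Submodule k (End k V)) : Prop := ∀ X ∈ L, AdE g g' X ∈ L

/-- The subspace `L` of `𝔤` is stable under the conjugations by all automorphisms of `V` which stabilize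
`𝔤` and `U`. -/
def IsCharacteristic (𝔤 U L : Submodule k (End k V)) : Prop :=
  (∀ X ∈ L, X ∈ 𝔤) ∧ ∀ g g' : End k V, g * g' = 1 → g' * g = 1 → Carries g g' 𝔤 →
    Carries g' g 𝔤 → Carries g g' U → Carries g' g U → Carries g g' L

variable {Γ : Type} [Group Γ] (ρ : Representation k Γ V)

/-- `L` is stable under the conjugations by the elements of `Γ`. -/
def IsStable (L : Submodule k (End k V)) : Prop := ∀ γ, Carries (ρ γ) (ρ γ⁻¹) L

/-- The determinant of `L` is a character of finite order of `Γ`. -/
def DetFiniteOrder {L : Submodule k (End k V)} (hL : IsStable ρ L) : Prop :=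
  ∃ m : ℕ, 0 < m ∧ ∀ γ, detOn L (AdE (ρ γ) (ρ γ⁻¹)) (hL γ) ^ m = 1

/-- `[μ, ·]` preserves `L ⊗ C`, with trace zero. -/
def HasTraceZero {C : Type} [Field C] [Algebra k C] (μ : End C (C ⊗[k] V))
    (L : Submodule k (End k V)) : Prop := TrZero μ (bcS C L)

/-- `μ` has the properties of the Hodge-Tate endomorphism (the operator of Sen): if `L` is a stable
space of endomorphisms of `V`, and the determinant of `L` is a character of finite order, then
`[μ, ·]` preserves `L ⊗ C`, with trace zero. -/
def IsHodgeTate {C : Type} [Field C] [Algebra k C] (μ : End C (C ⊗[k] V)) : Prop :=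
  ∀ (L : Submodule k (End k V)) (hL : IsStable ρ L), DetFiniteOrder ρ hL → HasTraceZero μ L

end lie

section rep

variable {Γ : Type} [Group Γ] {ι : Type} {n : ι → ℕ} {ℓ : ℕ} [Fact ℓ.Prime] (ρ : Reps Γ n ℓ)
  (𝔤 : EndSpace n ℓ)

/-- `L` is stable under the conjugations by all elements of `Γ`. -/
def Stable (L : EndSpace n ℓ) : Prop := IsStable (sumRep ρ) L

/-- The determinant of `L` is a character of finite order of `Γ`. -/
def FiniteOrder (L : EndSpace n ℓ) : Prop := ∃ hL : IsStable (sumRep ρ) L, DetFiniteOrder _ hL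

/-- `U` is the nilradical of a proper parabolic subalgebra of `𝔤` (see `IsParabolicRadical`). -/
def ParabolicRadical (U : EndSpace n ℓ) : Prop := IsParabolicRadical 𝔤 U

/-- `L ⊆ 𝔤` is stable under all automorphisms which stabilize `𝔤` and `U`. -/
def Characteristic (U L : EndSpace n ℓ) : Prop := IsCharacteristic 𝔤 U L

/-- An endomorphism of the sum of the spaces `ℚ_ℓ ^ (n i)`, with scalars extended to `C`. -/
def EndOver (n : ι → ℕ) (ℓ : ℕ) [Fact ℓ.Prime] (C : Type) [Field C] [Algebra ℚ_[ℓ] C] : Type :=
  End C (C ⊗[ℚ_[ℓ]] (∀ i, Fin (n i) → ℚ_[ℓ]))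

variable {C : Type} [Field C] [Algebra ℚ_[ℓ] C]

/-- `μ` has the properties of the Hodge-Tate endomorphism of `ρ` (see `IsHodgeTate`). -/
def HodgeTate (μ : EndOver n ℓ C) : Prop := IsHodgeTate (sumRep ρ) μ

/-- `[μ, ·]` preserves `L ⊗ C`, with trace zero. -/
def TraceZero (μ : EndOver n ℓ C) (L : EndSpace n ℓ) : Prop :=
  HasTraceZero (V := ∀ i, Fin (n i) → ℚ_[ℓ]) μ L

/-- The nilradical of every proper parabolic subalgebra of `𝔤` has a characteristic subspace which `μ`
does not act on with trace zero. -/
def GeneralPosition (μ : EndOver n ℓ C) : Prop :=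
  ∀ U, ParabolicRadical 𝔤 U → ∃ L, Characteristic 𝔤 U L ∧ ¬ TraceZero μ L

/-- The specialization given by `s` has good reduction at all primes `p` in `T`, with the Frobenius
polynomials `P`, and `T` has at least three elements, different from `ℓ`. -/
structure GoodSpecialization [TopologicalSpace Γ] (ρ : Reps Γ n ℓ)
    (s : Gal(AlgebraicClosure ℚ/ℚ) →* Γ) (w : ι → ℤ) (P : HeightOneSpectrum (𝓞 ℚ) → ι → ℚ[X])
    (T : Set ℕ) : Prop where
  cont : Continuous s
  three : 3 ≤ T.encard
  primes : ∀ p ∈ T, p.Prime ∧ p ≠ ℓ ∧ UnramifiedIn ℚ p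
  good : ∀ p ∈ T, ∀ v, Above v p → ∀ i, GoodReduction (restrictTo ρ s) i (w i) v (P v i)

end rep

section proofs

variable {Γ : Type} [Group Γ] [TopologicalSpace Γ] [IsTopologicalGroup Γ] [CompactSpace Γ]
    {ι : Type} [Fintype ι] [DecidableEq ι] {n : ι → ℕ} {ℓ : ℕ} [Fact ℓ.Prime]

theorem dich (ρ : Reps Γ n ℓ) (hρ : Conts ρ) (𝔤 : EndSpace n ℓ) (h𝔤 : Motivic ρ 𝔤)
    (h𝔤' : Stable ρ 𝔤) : Semisimple ρ ∨ ∃ U, Stable ρ U ∧ Contained U 𝔤 ∧
      ParabolicRadical 𝔤 U := by
  have h4 : ∀ γ, ∀ X ∈ (show Submodule ℚ_[ℓ] (End ℚ_[ℓ] (∀ i, Fin (n i) → ℚ_[ℓ])) from 𝔤),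
      sumRep ρ γ * X * sumRep ρ γ⁻¹ ∈
        (show Submodule ℚ_[ℓ] (End ℚ_[ℓ] (∀ i, Fin (n i) → ℚ_[ℓ])) from 𝔤) := by
    intro γ X hX
    rw [mul_assoc]
    exact h𝔤' γ X hX
  rcases dichotomy inputs inputs2 ρ hρ 𝔤 h𝔤 h4 with h1 | ⟨U, hU1, hU2, hU3, hU4⟩
  · exact Or.inl h1
  · refine Or.inr ⟨U, fun γ X hX => hU4 γ X hX, hU1, hU2, fun X => ?_⟩
    constructor
    · intro hX
      have h3 : X ∈ radOf (norm 𝔤 U) := by rw [hU3]; exact hX
      exact h3
    · intro hX
      have h3 : X ∈ radOf (norm 𝔤 U) := hX
      rwa [hU3] at h3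

theorem detOn_congr' {k V : Type} [Field k] [AddCommGroup V] [Module k V]
    {L : Submodule k (End k V)} {a b a' b' : End k V} (h : ∀ X ∈ L, AdE a b X ∈ L)
    (h' : ∀ X ∈ L, AdE a' b' X ∈ L) (h1 : a = a') (h2 : b = b') :
    detOn L (AdE a b) h = detOn L (AdE a' b') h' := by
  subst h1
  subst h2
  rfl

theorem carries_congr {k V : Type} [Field k] [AddCommGroup V] [Module k V]
    {L : Submodule k (End k V)} {a b a' b' : End k V} (h : Carries a b L) (h1 : a = a')
    (h2 : b = b') : Carries a' b' L := by
  subst h1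
  subst h2
  exact h

theorem det_rat (ρ : Reps Γ n ℓ) (hρ : Conts ρ)
    (𝔤 : EndSpace n ℓ) (h𝔤 : Motivic ρ 𝔤)
    {s : Gal(AlgebraicClosure ℚ/ℚ) →* Γ} {w : ι → ℤ} {P : HeightOneSpectrum (𝓞 ℚ) → ι → ℚ[X]}
    {T : Set ℕ} (hs : GoodSpecialization ρ s w P T) {L : EndSpace n ℓ} (hL : Stable ρ L)
    (hLG : Contained L 𝔤) : FiniteOrder (restrictTo ρ s) L := by
  obtain ⟨m, hm, h1⟩ := det_fin (w := w) inputs inputs2 ρ hρ s hs.cont 𝔤 h𝔤 P T hs.three
    hs.primes (fun p hp v hv => goodPlace_of (restrictTo ρ s) (hs.good p hp v hv)) (L := L) hLG hL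
  have hinv : ∀ τ, sumRep ρ (s τ)⁻¹ = sumRep (restrictTo ρ s) τ⁻¹ := by
    intro τ
    rw [← map_inv]
    rfl
  have hL' : IsStable (sumRep (restrictTo ρ s)) L := fun τ =>
    carries_congr (hL (s τ)) rfl (hinv τ)
  refine ⟨hL', m, hm, fun τ => ?_⟩
  have h2 := detOn_congr' (hL (s τ)) (hL' τ) rfl (hinv τ)
  exact (congrArg (fun x => x ^ m) h2.symm).trans (h1 τ)

end proofs

theorem result {Γ : Type} [Group Γ] [TopologicalSpace Γ] [IsTopologicalGroup Γ] [CompactSpace Γ]
    {ι : Type} [Fintype ι] [DecidableEq ι] {n : ι → ℕ} {ℓ : ℕ} [Fact ℓ.Prime]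
    -- the `ℓ`-adic realizations, and the Lie algebra of the motivic Galois group
    (ρ : Reps Γ n ℓ) (hρ : Conts ρ) (𝔤 : EndSpace n ℓ) (h𝔤 : Motivic ρ 𝔤) (h𝔤' : Stable ρ 𝔤)
    -- at least three primes of good reduction
    (s : Gal(AlgebraicClosure ℚ/ℚ) →* Γ) (w : ι → ℤ) (P : HeightOneSpectrum (𝓞 ℚ) → ι → ℚ[X])
    (T : Set ℕ) (hs : GoodSpecialization ρ s w P T)
    -- the Hodge-Tate endomorphism
    {C : Type} [Field C] [Algebra ℚ_[ℓ] C] (μ : EndOver n ℓ C)
    (hμ : HodgeTate (restrictTo ρ s) μ) :
    (∀ L : EndSpace n ℓ, Stable ρ L → Contained L 𝔤 →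
      FiniteOrder (restrictTo ρ s) L ∧ TraceZero μ L) ∧
    (GeneralPosition 𝔤 μ → Semisimple ρ) := by
  have h1 : ∀ L : EndSpace n ℓ, Stable ρ L → Contained L 𝔤 →
      FiniteOrder (restrictTo ρ s) L ∧ TraceZero μ L := fun L hL hLG => by
    have h2 := det_rat ρ hρ 𝔤 h𝔤 hs hL hLG
    obtain ⟨h3, h4⟩ := h2
    exact ⟨⟨h3, h4⟩, hμ L h3 h4⟩
  refine ⟨h1, fun hpos => ?_⟩
  rcases dich ρ hρ 𝔤 h𝔤 h𝔤' with h2 | ⟨U, hU, hUG, hUP⟩
  · exact h2
  · obtain ⟨L, hL, hLt⟩ := hpos U hUP
    have hinv : ∀ {M : EndSpace n ℓ}, Stable ρ M → ∀ γ,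
        Carries (V := ∀ i, Fin (n i) → ℚ_[ℓ]) (sumRep ρ γ⁻¹) (sumRep ρ γ) M := fun hM γ =>
      carries_congr (hM γ⁻¹) rfl (by rw [inv_inv])
    have hLs : Stable ρ L := fun γ => hL.2 _ _ (by rw [← map_mul, mul_inv_cancel, map_one])
      (by rw [← map_mul, inv_mul_cancel, map_one]) (h𝔤' γ) (hinv h𝔤' γ) (hU γ) (hinv hU γ)
    exact absurd (h1 L hLs hL.1).2 hLt

end Pool.Agent.Results.MP_8f1292_ag.HodgeCocharacter
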