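import Pool.Agent.H850.RG.Hom

/-!
# MP_8f1292_ag: semisimplicity and the Tate conjecture over large fields

`F` is a field (for instance a number field), `Ω` its separable closure, and `K` the fixed field of
three random elements `σ, τ, υ` of the absolute Galois group (Haar measure). For countably many
pairs of motives `M, M'` over `F` at once (for a number field: for all pairs of motives and all
primes) we prove that semisimplicity of the realizations and the Tate conjecture for `Hom(M, M')`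
over one field `L` between `F₀` and a finite extension of `K` are equivalent to the same statements
over `F` and all its finite extensions. No semisimplicity is assumed.
-/

set_option autoImplicit false
set_option linter.unusedSectionVars false

namespace Pool.Agent.Results.MP_8f1292_ag.ThreeAutomorphisms

open MeasureTheory Topology

/-- A matrix over `ℤ_p` viewed over `ℚ_p`. -/
noncomputable def rat {p : ℕ} [Fact p.Prime] {N : ℕ} (g : GL (Fin N) ℤ_[p]) :
    Matrix (Fin N) (Fin N) ℚ_[p] :=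
  (g : Matrix (Fin N) (Fin N) ℤ_[p]).map (algebraMap ℤ_[p] ℚ_[p])

/-- `φ' ∘ g = g' ∘ φ` for a pair of linear maps `φ, φ'` from `ℚ_p ^ N` to `ℚ_p ^ N'`, that is:
`φ'` is the transform of `φ` under `g` and `g'`. -/
def Transforms {p : ℕ} [Fact p.Prime] {N N' : ℕ} (g : GL (Fin N) ℤ_[p]) (g' : GL (Fin N') ℤ_[p])
    (φ φ' : Matrix (Fin N') (Fin N) ℚ_[p]) : Prop :=
  φ' * rat g = rat g' * φ

/-- Two motives `M, M'` over `F` and a prime `p`: the continuous actions `ρ, ρ'` of the Galois group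
on lattices `ℤ_p ^ N, ℤ_p ^ N'` in the `p`-adic realizations `M_p = ℚ_p ^ N`, `M'_p = ℚ_p ^ N'`, the
group `H` of morphisms from `M` to `M'` over the separable closure, on which Galois acts with open
stabilisers, and the realization of a morphism as a linear map from `M_p` to `M'_p`, compatible
with the Galois actions. -/
structure MotivePair (F Ω : Type) [Field F] [Field Ω] [Algebra F Ω] where
  p : ℕ
  [prime : Fact p.Prime]
  N : ℕ
  N' : ℕ
  ρ : Gal(Ω/F) →* GL (Fin N) ℤ_[p]
  ρ' : Gal(Ω/F) →* GL (Fin N') ℤ_[p]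
  cont : Continuous fun σ => (ρ σ : Matrix (Fin N) (Fin N) ℤ_[p])
  cont' : Continuous fun σ => (ρ' σ : Matrix (Fin N') (Fin N') ℤ_[p])
  H : Type
  [group : AddCommGroup H]
  [galois : DistribMulAction Gal(Ω/F) H]
  isOpen_stabilizer : ∀ h : H, IsOpen (MulAction.stabilizer Gal(Ω/F) h : Set Gal(Ω/F))
  real : H →+ Matrix (Fin N') (Fin N) ℚ_[p]
  equivariant : ∀ (σ : Gal(Ω/F)) (h : H), Transforms (ρ σ) (ρ' σ) (real h) (real (σ • h))

attribute [instance] MotivePair.prime MotivePair.group MotivePair.galois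

variable {F Ω : Type} [Field F] [Field Ω] [Algebra F Ω]

/-- The subspace `W` is stable under the Galois group of `L`. -/
def StableOver {p : ℕ} [Fact p.Prime] {N : ℕ} (ρ : Gal(Ω/F) →* GL (Fin N) ℤ_[p])
    (L : IntermediateField F Ω) (W : Submodule ℚ_[p] (Fin N → ℚ_[p])) : Prop :=
  ∀ σ ∈ L.fixingSubgroup, ∀ x ∈ W, (rat (ρ σ)).mulVec x ∈ W

/-- The realization is a semisimple representation of the Galois group of `L`: every stable subspace
has a stable complement. -/
def SemisimpleOver {p : ℕ} [Fact p.Prime] {N : ℕ} (ρ : Gal(Ω/F) →* GL (Fin N) ℤ_[p])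
    (L : IntermediateField F Ω) : Prop :=
  ∀ W, StableOver ρ L W → ∃ W', StableOver ρ L W' ∧ IsCompl W W'

namespace MotivePair

variable (X : MotivePair F Ω)

/-- Both realizations are semisimple over `L`. -/
def Semisimple (L : IntermediateField F Ω) : Prop :=
  SemisimpleOver X.ρ L ∧ SemisimpleOver X.ρ' L

/-- The linear map `φ` from `M_p` to `M'_p` commutes with the Galois group of `L`. -/
def HomOver (L : IntermediateField F Ω) (φ : Matrix (Fin X.N') (Fin X.N) ℚ_[X.p]) : Prop :=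
  ∀ σ ∈ L.fixingSubgroup, Transforms (X.ρ σ) (X.ρ' σ) φ φ

/-- The morphisms from `M` to `M'` over `L`: those fixed by the Galois group of `L`. -/
def MorphismsOver (L : IntermediateField F Ω) : Set X.H :=
  {h | ∀ σ ∈ L.fixingSubgroup, σ • h = h}

/-- The `ℚ_p`-combinations of realizations of morphisms over `L`. -/
noncomputable def AlgOver (L : IntermediateField F Ω) :
    Submodule ℚ_[X.p] (Matrix (Fin X.N') (Fin X.N) ℚ_[X.p]) :=
  Submodule.span ℚ_[X.p] (X.real '' X.MorphismsOver L)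

/-- The Tate conjecture for `Hom(M, M')` over `L`: the maps commuting with the Galois group of `L`
are `ℚ_p`-combinations of realizations of morphisms over `L`. -/
def TateOver (L : IntermediateField F Ω) : Prop :=
  ∀ φ, X.HomOver L φ → φ ∈ X.AlgOver L

/-- The Tate conjecture for `Hom(M, M')` over all finite extensions of `F`. -/
def Tate : Prop := ∀ F' : IntermediateField F Ω, FiniteDimensional F F' → X.TateOver F'

/-- The value of a polynomial at the entries of the matrices of a Galois element on both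
realizations. -/
noncomputable def value
    (P : MvPolynomial ((Fin X.N × Fin X.N) ⊕ (Fin X.N' × Fin X.N')) ℚ_[X.p]) (σ : Gal(Ω/F)) :
    ℚ_[X.p] :=
  MvPolynomial.eval (Sum.elim (fun q => rat (X.ρ σ) q.1 q.2) fun q => rat (X.ρ' σ) q.1 q.2) P

/-- The `p`-adic monodromy group of the pair over `F₀` is connected: every polynomial in the matrix
entries that vanishes on the image of the Galois group of some finite extension of `F` vanishes on
the image of the Galois group of `F₀`. -/
def ConnectedOver (F₀ : IntermediateField F Ω) : Prop :=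
  ∀ (P : MvPolynomial ((Fin X.N × Fin X.N) ⊕ (Fin X.N' × Fin X.N')) ℚ_[X.p])
    (F' : IntermediateField F Ω), FiniteDimensional F F' →
      (∀ σ ∈ F'.fixingSubgroup, X.value P σ = 0) → ∀ σ ∈ F₀.fixingSubgroup, X.value P σ = 0

/-- The pair is the same over `L` as over `F`, up to finite extensions:
(1) each realization is semisimple over `L` if and only if it is semisimple over `F`;
(2) if both are, then over `L` and over `F₀` there are the same subrepresentations of both
realizations and the same equivariant maps, these are the equivariant maps over the finite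
extensions of `F`, and the Tate conjecture for `Hom(M, M')` over `L` is equivalent to the Tate
conjecture over all finite extensions of `F`;
(3) semisimplicity together with the Tate conjecture over `L` is equivalent to semisimplicity over
`F` together with the Tate conjecture over all finite extensions of `F`. -/
def Same (F₀ L : IntermediateField F Ω) : Prop :=
  (SemisimpleOver X.ρ L ↔ SemisimpleOver X.ρ ⊥) ∧
  (SemisimpleOver X.ρ' L ↔ SemisimpleOver X.ρ' ⊥) ∧
  (X.Semisimple ⊥ →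
    (∀ W, StableOver X.ρ L W ↔ StableOver X.ρ F₀ W) ∧
    (∀ W, StableOver X.ρ' L W ↔ StableOver X.ρ' F₀ W) ∧
    (∀ φ, X.HomOver L φ ↔ X.HomOver F₀ φ) ∧
    (∀ φ, X.HomOver L φ ↔
      ∃ F' : IntermediateField F Ω, FiniteDimensional F F' ∧ X.HomOver F' φ) ∧
    (X.TateOver L ↔ X.Tate)) ∧
  (X.Semisimple L ∧ X.TateOver L ↔ X.Semisimple ⊥ ∧ X.Tate)

end MotivePair

/-- The fixed field of `σ`, `τ` and `υ`. -/
noncomputable def fixedBy (σ τ υ : Gal(Ω/F)) : IntermediateField F Ω :=
  IntermediateField.fixedField (Subgroup.closure {σ, τ, υ})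

section Proofs

variable [IsGalois F Ω]

open Pool.Agent.H850.TF Pool.Agent.H850.RG

theorem exists_field {U : Subgroup Gal(Ω/F)} (hU : IsOpen (U : Set Gal(Ω/F))) :
    ∃ L : IntermediateField F Ω, FiniteDimensional F L ∧
      L.fixingSubgroup ≤ U := by
  have h1 : (U : Set Gal(Ω/F)) ∈ 𝓝 (1 : Gal(Ω/F)) := hU.mem_nhds U.one_mem
  rw [krullTopology_mem_nhds_one_iff] at h1
  exact h1

theorem semisimple_iff {p : ℕ} [Fact p.Prime] {N : ℕ} (ρ : Gal(Ω/F) →* GL (Fin N) ℤ_[p])
    (L : IntermediateField F Ω) :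
    SemisimpleOver ρ L ↔ SS (stdr ρ) (L.fixingSubgroup : Set Gal(Ω/F)) := Iff.rfl

theorem semisimple_bot {p : ℕ} [Fact p.Prime] {N : ℕ} (ρ : Gal(Ω/F) →* GL (Fin N) ℤ_[p]) :
    SemisimpleOver ρ (⊥ : IntermediateField F Ω) ↔ SS (stdr ρ) Set.univ := by
  rw [semisimple_iff, IntermediateField.fixingSubgroup_bot, Subgroup.coe_top]

theorem homOver_iff (X : MotivePair F Ω) (L : IntermediateField F Ω)
    (φ : Matrix (Fin X.N') (Fin X.N) ℚ_[X.p]) :
    X.HomOver L φ ↔ ∀ σ ∈ L.fixingSubgroup, ∀ x,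
      Matrix.toLin' φ (stdr X.ρ σ x) = stdr X.ρ' σ (Matrix.toLin' φ x) := by
  have h1 : ∀ σ : Gal(Ω/F), φ * rat (X.ρ σ) = rat (X.ρ' σ) * φ ↔
      ∀ x, Matrix.toLin' φ (stdr X.ρ σ x) = stdr X.ρ' σ (Matrix.toLin' φ x) := by
    intro σ
    constructor
    · intro h x
      change φ.mulVec ((rat (X.ρ σ)).mulVec x) = (rat (X.ρ' σ)).mulVec (φ.mulVec x)
      rw [Matrix.mulVec_mulVec, Matrix.mulVec_mulVec, h]
    · intro h
      apply Matrix.toLin'.injective
      apply LinearMap.ext
      intro x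
      have h2 : φ.mulVec ((rat (X.ρ σ)).mulVec x) = (rat (X.ρ' σ)).mulVec (φ.mulVec x) := h x
      rw [Matrix.mulVec_mulVec, Matrix.mulVec_mulVec] at h2
      exact h2
  unfold MotivePair.HomOver Transforms
  simp only [h1]

/-- descent of combinations of morphisms -/
theorem descent (X : MotivePair F Ω) {φ : Matrix (Fin X.N') (Fin X.N) ℚ_[X.p]}
    (hv : φ ∈ Submodule.span ℚ_[X.p] (Set.range X.real))
    (L : IntermediateField F Ω) (hL : X.HomOver L φ) : φ ∈ X.AlgOver L := by
  classical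
  change φ ∈ Submodule.span ℚ_[X.p] (X.real '' {h | ∀ σ ∈ L.fixingSubgroup, σ • h = h})
  set G := L.fixingSubgroup with hG
  rw [Finsupp.mem_span_range_iff_exists_finsupp] at hv
  obtain ⟨c, hc⟩ := hv
  set U : Subgroup Gal(Ω/F) := ⨅ e : c.support, MulAction.stabilizer Gal(Ω/F) (e : X.H) with hU
  have hUopen : IsOpen (U : Set Gal(Ω/F)) := by
    rw [hU, Subgroup.coe_iInf]
    exact isOpen_iInter_of_finite fun e => X.isOpen_stabilizer e
  have hUfix : ∀ e ∈ c.support, ∀ u ∈ U, u • e = e := by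
    intro e he u hu
    rw [hU, Subgroup.mem_iInf] at hu
    exact hu ⟨e, he⟩
  have hfin : Finite (Gal(Ω/F) ⧸ U) := Subgroup.quotient_finite_of_isOpen U hUopen
  have hidx : U.FiniteIndex := Subgroup.finiteIndex_of_finite_quotient
  have hfinQ : Finite (G ⧸ U.subgroupOf G) := inferInstance
  have : Fintype (G ⧸ U.subgroupOf G) := Fintype.ofFinite _
  set n : ℕ := Fintype.card (G ⧸ U.subgroupOf G) with hn
  have hn0 : n ≠ 0 := Fintype.card_ne_zero
  let av : X.H → X.H := fun e => ∑ q : G ⧸ U.subgroupOf G, (q.out : Gal(Ω/F)) • e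
  have hav : ∀ e ∈ c.support, ∀ σ ∈ G, σ • av e = av e := by
    intro e he σ hσ
    change σ • (∑ q : G ⧸ U.subgroupOf G, (q.out : Gal(Ω/F)) • e) =
      ∑ q : G ⧸ U.subgroupOf G, (q.out : Gal(Ω/F)) • e
    rw [Finset.smul_sum]
    have h2 : ∀ q : G ⧸ U.subgroupOf G, σ • (q.out : Gal(Ω/F)) • e =
        (((⟨σ, hσ⟩ : G) • q).out : Gal(Ω/F)) • e := by
      intro q
      have h3 : ((⟨σ, hσ⟩ : G) * q.out : G)⁻¹ * ((⟨σ, hσ⟩ : G) • q).out ∈ U.subgroupOf G := by
        rw [← QuotientGroup.eq, QuotientGroup.out_eq']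
        have h4 : (q : G ⧸ U.subgroupOf G) = QuotientGroup.mk q.out := (QuotientGroup.out_eq' q).symm
        conv_rhs => rw [h4]
        rfl
      have h5 := hUfix e he _ (Subgroup.mem_subgroupOf.1 h3)
      have h6 : (((⟨σ, hσ⟩ : G) • q).out : Gal(Ω/F)) = (σ * (q.out : Gal(Ω/F))) *
          ((((⟨σ, hσ⟩ : G) * q.out : G)⁻¹ * ((⟨σ, hσ⟩ : G) • q).out : G) : Gal(Ω/F)) := by
        push_cast
        group
      rw [h6, mul_smul, h5, mul_smul]
    simp_rw [h2]
    exact Equiv.sum_comp (MulAction.toPerm (⟨σ, hσ⟩ : G)) fun q : G ⧸ U.subgroupOf G =>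
      (q.out : Gal(Ω/F)) • e
  have hinv : ∀ σ : Gal(Ω/F), rat (X.ρ σ) * rat (X.ρ σ⁻¹) = 1 := by
    intro σ
    change Pool.Agent.H850.TF.rat X.ρ σ * Pool.Agent.H850.TF.rat X.ρ σ⁻¹ = 1
    rw [← map_mul, mul_inv_cancel, map_one]
  have hconj : ∀ σ ∈ G, φ = c.sum fun e a => a • X.real (σ • e) := by
    intro σ hσ
    have h1 : rat (X.ρ' σ) * φ * rat (X.ρ σ⁻¹) = c.sum fun e a => a • X.real (σ • e) := by
      rw [← hc, Finsupp.sum, Matrix.mul_sum, Matrix.sum_mul, Finsupp.sum]
      refine Finset.sum_congr rfl fun e _ => ?_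
      have h2 : X.real (σ • e) * rat (X.ρ σ) = rat (X.ρ' σ) * X.real e := X.equivariant σ e
      rw [Matrix.mul_smul, Matrix.smul_mul, ← h2, Matrix.mul_assoc, hinv,
        Matrix.mul_one]
    have h3 : φ * rat (X.ρ σ) = rat (X.ρ' σ) * φ := hL σ hσ
    rw [← h1, ← h3, Matrix.mul_assoc, hinv, Matrix.mul_one]
  have hn0' : (n : ℚ_[X.p]) ≠ 0 := by exact_mod_cast hn0
  have hX2 : φ = (n : ℚ_[X.p])⁻¹ • ∑ q : G ⧸ U.subgroupOf G, φ := by
    rw [Finset.sum_const, Finset.card_univ, ← hn, ← Nat.cast_smul_eq_nsmul ℚ_[X.p], smul_smul,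
      inv_mul_cancel₀ hn0', one_smul]
  have hX3 : φ = ∑ e ∈ c.support, ((n : ℚ_[X.p])⁻¹ * c e) • X.real (av e) := by
    rw [hX2]
    have h4 : ∑ q : G ⧸ U.subgroupOf G, φ =
        ∑ q : G ⧸ U.subgroupOf G, c.sum fun e a => a • X.real ((q.out : Gal(Ω/F)) • e) :=
      Finset.sum_congr rfl fun q _ => hconj _ q.out.2
    rw [h4]
    simp only [Finsupp.sum]
    rw [Finset.sum_comm, Finset.smul_sum]
    refine Finset.sum_congr rfl fun e _ => ?_
    rw [← Finset.smul_sum, smul_smul, ← map_sum]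
  rw [hX3]
  refine Submodule.sum_mem _ fun e he => Submodule.smul_mem _ _ (Submodule.subset_span ?_)
  exact ⟨av e, hav e he, rfl⟩

theorem mem_fixedBy (σ τ υ : Gal(Ω/F)) :
    σ ∈ (fixedBy σ τ υ).fixingSubgroup ∧ τ ∈ (fixedBy σ τ υ).fixingSubgroup ∧
      υ ∈ (fixedBy σ τ υ).fixingSubgroup := by
  have h1 : Subgroup.closure {σ, τ, υ} ≤ (fixedBy σ τ υ).fixingSubgroup :=
    (IntermediateField.le_iff_le _ _).1 le_rfl
  exact ⟨h1 (Subgroup.subset_closure (by simp)), h1 (Subgroup.subset_closure (by simp)),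
    h1 (Subgroup.subset_closure (by simp))⟩

theorem connectedOver_iff (X : MotivePair F Ω) (F₀ : IntermediateField F Ω) :
    X.ConnectedOver F₀ ↔ F₀.fixingSubgroup ≤ conn (dsm X.ρ X.ρ') := by
  constructor
  · intro h
    apply ConnOn.le
    refine connOn_of_poly (dsm X.ρ X.ρ') _ fun P V hV hPV u hu => ?_
    obtain ⟨Q, hQ⟩ := exists_val2 X.ρ X.ρ' P
    obtain ⟨L, hL, hLV⟩ := exists_field hV
    rw [hQ]
    refine h Q L hL (fun σ hσ => ?_) u hu
    have h1 := hPV σ (hLV hσ)
    rw [hQ] at h1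
    exact h1
  · intro h P F' hF' hP σ hσ
    exact connOn_conn (dsm X.ρ X.ρ') _ (val2_mem X.ρ X.ρ' P) F'.fixingSubgroup
      F'.fixingSubgroup_isOpen hP σ (h hσ)

end Proofs

/-- **Semisimplicity and the Tate conjecture over large fields.** Let `F` be a field and let `X i`
be countably many pairs of motives over `F`, for arbitrary primes. For almost all triples
`(σ, τ, υ)` in the absolute Galois group of `F`, with fixed field `K`, and for all `i`: if `F₀` is a
subfield of `K` over which the monodromy group of the pair `X i` is connected (there is such a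
finite extension `F₀` of `F`), and `L` is any field between `F₀` and a finite extension `K F'` of
`K`, then the pair is the same over `L` as over `F`: see `MotivePair.Same`. -/
theorem result [IsGalois F Ω] [MeasurableSpace Gal(Ω/F)] [BorelSpace Gal(Ω/F)]
    (μ : Measure Gal(Ω/F)) [μ.IsHaarMeasure] {ι : Type} [Countable ι] (X : ι → MotivePair F Ω) :
    (∀ i, ∃ F₀ : IntermediateField F Ω, FiniteDimensional F F₀ ∧ (X i).ConnectedOver F₀) ∧
    ∀ᵐ σ ∂μ, ∀ᵐ τ ∂μ, ∀ᵐ υ ∂μ, ∀ i, ∀ F₀ : IntermediateField F Ω,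
      (X i).ConnectedOver F₀ → F₀ ≤ fixedBy σ τ υ →
        ∀ F' : IntermediateField F Ω, FiniteDimensional F F' →
          ∀ L : IntermediateField F Ω, F₀ ≤ L → L ≤ fixedBy σ τ υ ⊔ F' →
            (X i).Same F₀ L := by
  constructor
  · intro i
    obtain ⟨F₀, hF₀, hle⟩ := exists_field
      (Pool.Agent.H850.RG.isOpen_conn (Pool.Agent.H850.RG.dsm (X i).ρ (X i).ρ'))
    exact ⟨F₀, hF₀, (connectedOver_iff (X i) F₀).2 hle⟩
  have h1 : ∀ᵐ σ ∂μ, ∀ i, _ := ae_all_iff.2 fun i =>
    Pool.Agent.H850.RG.hom_main μ (X i).cont (X i).cont'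
  filter_upwards [h1] with σ hσ
  have h2 : ∀ᵐ τ ∂μ, ∀ i, _ := ae_all_iff.2 fun i => hσ i
  filter_upwards [h2] with τ hτ
  have h3 : ∀ᵐ υ ∂μ, ∀ i, _ := ae_all_iff.2 fun i => hτ i
  filter_upwards [h3] with υ hυ i F₀ hconn hle F' hF' L hF₀L hLK
  have hconn' := (connectedOver_iff (X i) F₀).1 hconn
  have hG₀ : (fixedBy σ τ υ).fixingSubgroup ≤ F₀.fixingSubgroup :=
    IntermediateField.fixingSubgroup_le hle
  obtain ⟨m1, m2, m3⟩ := mem_fixedBy σ τ υ
  have hLF : L.fixingSubgroup ≤ F₀.fixingSubgroup := IntermediateField.fixingSubgroup_le hF₀L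
  have hKL : (fixedBy σ τ υ ⊔ F').fixingSubgroup ≤ L.fixingSubgroup :=
    IntermediateField.fixingSubgroup_le hLK
  -- powers of the elements over the finite extension
  have hfin : Finite (Gal(Ω/F) ⧸ F'.fixingSubgroup) :=
    Subgroup.quotient_finite_of_isOpen _ F'.fixingSubgroup_isOpen
  have hidx : F'.fixingSubgroup.index ≠ 0 := by
    have : F'.fixingSubgroup.FiniteIndex := Subgroup.finiteIndex_of_finite_quotient
    exact this.index_ne_zero
  obtain ⟨a, ha, -, hσa⟩ := Subgroup.exists_pow_mem_of_index_ne_zero hidx σ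
  obtain ⟨b, hb, -, hτb⟩ := Subgroup.exists_pow_mem_of_index_ne_zero hidx τ
  obtain ⟨c, hc, -, hυc⟩ := Subgroup.exists_pow_mem_of_index_ne_zero hidx υ
  have hk : a * b * c ≠ 0 := Nat.mul_ne_zero (Nat.mul_ne_zero (by omega) (by omega)) (by omega)
  have hσk : σ ^ (a * b * c) ∈ L.fixingSubgroup := by
    apply hKL
    rw [IntermediateField.fixingSubgroup_sup]
    refine ⟨Subgroup.pow_mem _ m1 _, ?_⟩
    rw [mul_assoc, pow_mul]
    exact Subgroup.pow_mem _ hσa _
  have hτk : τ ^ (a * b * c) ∈ L.fixingSubgroup := by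
    apply hKL
    rw [IntermediateField.fixingSubgroup_sup]
    refine ⟨Subgroup.pow_mem _ m2 _, ?_⟩
    rw [mul_comm a b, mul_assoc, pow_mul]
    exact Subgroup.pow_mem _ hτb _
  have hυk : υ ^ (a * b * c) ∈ L.fixingSubgroup := by
    apply hKL
    rw [IntermediateField.fixingSubgroup_sup]
    refine ⟨Subgroup.pow_mem _ m3 _, ?_⟩
    rw [mul_comm (a * b) c, pow_mul]
    exact Subgroup.pow_mem _ hυc _
  obtain ⟨q1, q2, q3⟩ := hυ i (hconn' (hG₀ m1)) (hconn' (hG₀ m2)) (hconn' (hG₀ m3)) _ hk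
    (L.fixingSubgroup : Set Gal(Ω/F)) (fun s hs => hconn' (hLF hs)) hσk hτk hυk
  have e1 : SemisimpleOver (X i).ρ L ↔ SemisimpleOver (X i).ρ ⊥ := by
    rw [semisimple_bot, semisimple_iff]
    exact q1
  have e2 : SemisimpleOver (X i).ρ' L ↔ SemisimpleOver (X i).ρ' ⊥ := by
    rw [semisimple_bot, semisimple_iff]
    exact q2
  have e3 : (X i).Semisimple ⊥ →
      (∀ W, StableOver (X i).ρ L W ↔ StableOver (X i).ρ F₀ W) ∧
      (∀ W, StableOver (X i).ρ' L W ↔ StableOver (X i).ρ' F₀ W) ∧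
      (∀ φ, (X i).HomOver L φ ↔ (X i).HomOver F₀ φ) ∧
      (∀ φ, (X i).HomOver L φ ↔
        ∃ F' : IntermediateField F Ω, FiniteDimensional F F' ∧ (X i).HomOver F' φ) ∧
      ((X i).TateOver L ↔ (X i).Tate) := by
    rintro ⟨s1, s2⟩
    obtain ⟨r1, r2, r3⟩ := q3 ((semisimple_bot _).1 s1) ((semisimple_bot _).1 s2)
    have hH : ∀ φ, (X i).HomOver L φ ↔
        ∃ F' : IntermediateField F Ω, FiniteDimensional F F' ∧ (X i).HomOver F' φ := by
      intro φ
      constructor
      · intro hφ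
        obtain ⟨F₁, hF₁, hle₁⟩ := exists_field
          (Pool.Agent.H850.RG.isOpen_conn (Pool.Agent.H850.RG.dsm (X i).ρ (X i).ρ'))
        refine ⟨F₁, hF₁, ?_⟩
        rw [homOver_iff]
        intro u hu
        exact r3 _ ((homOver_iff (X i) L φ).1 hφ) u (hle₁ hu)
      · rintro ⟨F₁, hF₁, hφ⟩
        rw [homOver_iff] at hφ ⊢
        intro s hs
        exact Pool.Agent.H850.RG.hom_of_open (Pool.Agent.H850.RG.MC_left (X i).ρ (X i).ρ')
          (Pool.Agent.H850.RG.MC_right (X i).ρ (X i).ρ') _ F₁.fixingSubgroup_isOpen hφ s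
            (hconn' (hLF hs))
    refine ⟨?_, ?_, ?_, hH, ?_⟩
    · intro W
      exact ⟨fun hW s hs => r1 W hW s (hconn' hs), fun hW s hs => hW s (hLF hs)⟩
    · intro W
      exact ⟨fun hW s hs => r2 W hW s (hconn' hs), fun hW s hs => hW s (hLF hs)⟩
    · intro φ
      constructor
      · intro hφ
        rw [homOver_iff]
        intro s hs
        exact r3 _ ((homOver_iff (X i) L φ).1 hφ) s (hconn' hs)
      · intro hφ s hs
        exact hφ s (hLF hs)
    · constructor
      · intro hT F₁ hF₁ φ hφ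
        have h4 := hT φ ((hH φ).2 ⟨F₁, hF₁, hφ⟩)
        exact descent (X i) (Submodule.span_mono (Set.image_subset_range _ _) h4) F₁ hφ
      · intro hT φ hφ
        obtain ⟨F₁, hF₁, hφ₁⟩ := (hH φ).1 hφ
        have h4 := hT F₁ hF₁ φ hφ₁
        exact descent (X i) (Submodule.span_mono (Set.image_subset_range _ _) h4) L hφ
  refine ⟨e1, e2, e3, ?_⟩
  constructor
  · rintro ⟨⟨s1, s2⟩, hT⟩
    have hs : (X i).Semisimple ⊥ := ⟨e1.1 s1, e2.1 s2⟩
    exact ⟨hs, (e3 hs).2.2.2.2.1 hT⟩
  · rintro ⟨hs, hT⟩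
    exact ⟨⟨e1.2 hs.1, e2.2 hs.2⟩, (e3 hs).2.2.2.2.2 hT⟩

end Pool.Agent.Results.MP_8f1292_ag.ThreeAutomorphisms
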